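import Mathlib
import Pool.Agent.helper3.RNPLocal
import Pool.Agent.helper3.RNPNeg

/-! A complete metric space which is locally biLipschitz to subsets of the plane but admits no
biLipschitz embedding into a Banach space with the Radon-Nikodym property. -/

namespace Pool.Agent.Results.MP_49a0e9_an.LocalNotGlobal

open MeasureTheory

universe u

/-- The Radon-Nikodym property of a real Banach space `V`: each Lipschitz map from the real line
to `V` is differentiable at Lebesgue-almost every point. -/
def HasRNP (V : Type u) [NormedAddCommGroup V] [NormedSpace ℝ V] : Prop :=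
  ∀ f : ℝ → V, (∃ K : NNReal, LipschitzWith K f) → ∀ᵐ x ∂(volume : Measure ℝ),
    DifferentiableAt ℝ f x

/-- The metric space `X` admits a biLipschitz embedding into the normed space `V`. -/
def BiLipschitzEmbeds (X : Type*) [MetricSpace X] (V : Type*) [NormedAddCommGroup V] : Prop :=
  ∃ (φ : X → V) (c C : ℝ), 0 < c ∧ c ≤ C ∧
    ∀ x y : X, c * dist x y ≤ ‖φ x - φ y‖ ∧ ‖φ x - φ y‖ ≤ C * dist x y

/-- Each point of `X` has a closed ball of positive radius that admits a biLipschitz embedding
into some real Banach space with the Radon-Nikodym property. -/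
def LocallyEmbedsIntoRNP (X : Type) [MetricSpace X] : Prop :=
  ∀ p : X, ∃ r : ℝ, 0 < r ∧ ∃ (V : Type) (_ : NormedAddCommGroup V) (_ : NormedSpace ℝ V),
    CompleteSpace V ∧ HasRNP V ∧ BiLipschitzEmbeds (Metric.closedBall p r) V

open Pool.Agent.helper3.RNPSpace in
/-- There is a complete metric space that locally biLipschitz embeds into spaces with the
Radon-Nikodym property (even into the plane) but does not biLipschitz embed into any Banach
space with the Radon-Nikodym property. -/
theorem result : ∃ (X : Type) (_ : MetricSpace X), CompleteSpace X ∧ LocallyEmbedsIntoRNP X ∧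
    (∀ p : X, ∃ r : ℝ, 0 < r ∧ BiLipschitzEmbeds (Metric.closedBall p r) (ℝ × ℝ)) ∧
    ∀ (V : Type u) [NormedAddCommGroup V] [NormedSpace ℝ V] [CompleteSpace V],
      HasRNP V → ¬ BiLipschitzEmbeds X V := by
  have hloc : ∀ p : Pt, ∃ r : ℝ, 0 < r ∧
      BiLipschitzEmbeds (Metric.closedBall p r) (ℝ × ℝ) := by
    intro p
    refine ⟨1 / 4, by norm_num, fun x => emb x.1, 1 / (2 * ((p.ix.1 : ℝ) + 2)), 2, by positivity,
      ?_, ?_⟩
    · rw [div_le_iff₀ (by positivity)]
      have : (0 : ℝ) ≤ (p.ix.1 : ℝ) := Nat.cast_nonneg _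
      linarith
    · intro x y
      have hx : dist x.1 p ≤ 1 / 4 := x.2
      have hy : dist y.1 p ≤ 1 / 4 := y.2
      have h1 : x.1.ix.1 = p.ix.1 := fam_eq_of_dist_lt (by linarith)
      have h2 : y.1.ix.1 = p.ix.1 := fam_eq_of_dist_lt (by linarith)
      have h3 := emb_bounds (h1.trans h2.symm)
      rw [h1] at h3
      exact h3
  refine ⟨Pt, inferInstance, inferInstance, ?_, hloc, ?_⟩
  · intro p
    obtain ⟨r, hr, hb⟩ := hloc p
    refine ⟨r, hr, ℝ × ℝ, inferInstance, inferInstance, inferInstance, ?_, hb⟩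
    rintro f ⟨K, hK⟩
    exact hK.ae_differentiableAt
  · intro V _ _ _ hV hemb
    obtain ⟨φ, c, C, hc, _, hφ⟩ := hemb
    exact no_embedding hV φ c C hc hφ

end Pool.Agent.Results.MP_49a0e9_an.LocalNotGlobal
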